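import Pool.Agent.Helper58.FL2.Comb
import Pool.Agent.Helper54.FL2.Fib
import Pool.Agent.Helper83.FL.MpFibFinal
import Pool.Agent.Helper88.FL.Htpy

/-!
# FL2-C4: mapping presheaves of the completion at level 0
-/

open CategoryTheory MonoidalCategory Opposite

set_option autoImplicit false

namespace Helper85FL2

open FL

noncomputable section

/-- A map of simplicial sets which is bijective in every degree is an isomorphism. -/
lemma isIso_of_bij {K L : SSet.{0}} (f : K ⟶ L) (h : ∀ k, Function.Bijective (f.app k)) :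
    IsIso f := by
  rw [NatTrans.isIso_iff_isIso_app]
  intro k
  exact (isIso_iff_bijective _).mpr (h k)

section Yoneda

variable {A : Type} [SmallCategory A]

/-- The Yoneda map `X(a) ⟶ Map(h_a, X)`. -/
def yoMp (X : SP A) (a : A) : X.obj (op a) ⟶ Mp (rep a) X where
  app k := ↾ fun (x : (X.obj (op a)).obj k) => (yoS (k := k.unop) (a := a) x : MpS (rep a) X k.unop)
  naturality k l α := by
    refine ConcreteCategory.hom_ext _ _ fun x => ?_
    refine MpS.ext ?_
    funext b m s u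
    exact congrArg (fun z => (X.map (Quiver.Hom.op u)).app m z) (sset_comp _ α s.op x).symm

lemma yoS_apply {X : SP A} {a : A} {k : SimplexCategory} (x : (X.obj (op a)).obj (op k))
    {b : Aᵒᵖ} {l : SimplexCategoryᵒᵖ} (s : l.unop ⟶ k) (u : b.unop ⟶ a) :
    (yoS (a := a) x).app b l s u =
      (X.map (Quiver.Hom.op u)).app l ((X.obj (op a)).map s.op x) := rfl

lemma yoS_eval {X : SP A} {a : A} {k : SimplexCategory} (φ : MpS (rep a) X k) :
    yoS (a := a) (k := k) (φ.app (op a) (op k) (𝟙 k) (𝟙 a)) = φ := by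
  refine MpS.ext ?_
  funext b l s u
  have h1 := φ.nat_right (op a) (k := op k) (l := l) s.op (𝟙 k) (𝟙 a)
  have h2 := φ.nat_left (Quiver.Hom.op (show b.unop ⟶ a from u)) l s (𝟙 a)
  have h3 : ((rep a).map (Quiver.Hom.op (show b.unop ⟶ a from u))).app l (𝟙 a) = u :=
    Category.comp_id (obj := A) _
  have h4 : s.op.unop ≫ 𝟙 k = s := Category.comp_id _
  refine (yoS_apply _ s u).trans ?_
  rw [h3] at h2
  rw [h4] at h1
  refine Eq.trans ?_ h2.symm
  exact congrArg _ h1.symm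

lemma yoMp_bij (X : SP A) (a : A) (k : SimplexCategoryᵒᵖ) :
    Function.Bijective ((yoMp X a).app k) := by
  constructor
  · intro x y h
    have e := congrFun (congrFun (congrFun (congrFun (congrArg MpS.app h) (op a)) k) (𝟙 _)) (𝟙 a)
    have r : ∀ z : (X.obj (op a)).obj k,
        (X.map (𝟙 (op a))).app k ((X.obj (op a)).map (𝟙 k) z) = z := fun z => by
      rw [sp_id, sset_id]
    exact (r x).symm.trans (Eq.trans e (r y))
  · intro φ
    exact ⟨(φ : MpS (rep a) X k.unop).app (op a) k (𝟙 _) (𝟙 a), yoS_eval φ⟩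

end Yoneda

section Fibres

/-- The map of fibres over corresponding vertices. -/
def fmap {E B E' B' : SSet.{0}} {p : E ⟶ B} {p' : E' ⟶ B'} (f : E ⟶ E') (g : B ⟶ B')
    (w : f ≫ p' = p ≫ g) (b : B.obj (op (SimplexCategory.mk 0)))
    (b' : B'.obj (op (SimplexCategory.mk 0))) (hb : g.app _ b = b') : Fb p b ⟶ Fb p' b' where
  app k := ↾ fun z => ⟨f.app k z.1, by
    have := ConcreteCategory.congr_hom (NatTrans.congr_app w k) z.1
    refine this.trans ?_
    show g.app k (p.app k z.1) = _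
    rw [z.2, app_cst, hb]⟩
  naturality k l α := by
    refine ConcreteCategory.hom_ext _ _ fun z => ?_
    exact Subtype.ext (sset_nat f α z.1)

lemma fmap_bij {E B E' B' : SSet.{0}} {p : E ⟶ B} {p' : E' ⟶ B'} (f : E ⟶ E') (g : B ⟶ B')
    (w : f ≫ p' = p ≫ g) (b : B.obj (op (SimplexCategory.mk 0)))
    (b' : B'.obj (op (SimplexCategory.mk 0))) (hb : g.app _ b = b')
    (hf : ∀ k, Function.Bijective (f.app k)) (hg : ∀ k, Function.Injective (g.app k))
    (k : SimplexCategoryᵒᵖ) : Function.Bijective ((fmap f g w b b' hb).app k) := by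
  constructor
  · intro z z' h
    exact Subtype.ext ((hf k).1 (congrArg Subtype.val h))
  · intro y
    obtain ⟨z, hz⟩ := (hf k).2 y.1
    refine ⟨⟨z, ?_⟩, Subtype.ext hz⟩
    refine hg k ?_
    have := ConcreteCategory.congr_hom (NatTrans.congr_app w k) z
    refine this.symm.trans ?_
    show p'.app k (f.app k z) = _
    rw [hz, y.2, app_cst, hb]

/-- The fibre of a base change. -/
lemma fmap_fst_bij {E E' B D : SSet.{0}} (p : E ⟶ B) (q : E' ⟶ B) (κ : B ⟶ D)
    (hκ : ∀ k, Function.Injective (κ.app k)) (p' : E ⟶ D) (hp' : p ≫ κ = p')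
    (w : Fp.fst p q ≫ p' = Fp.snd p q ≫ (q ≫ κ)) (b : E'.obj (op (SimplexCategory.mk 0)))
    (b' : D.obj (op (SimplexCategory.mk 0))) (hb : (q ≫ κ).app _ b = b')
    (k : SimplexCategoryᵒᵖ) :
    Function.Bijective ((fmap (Fp.fst p q) (q ≫ κ) w b b' hb).app k) := by
  constructor
  · intro z z' h
    refine Subtype.ext (Subtype.ext (Prod.ext (congrArg Subtype.val h) ?_))
    exact z.2.trans z'.2.symm
  · intro y
    subst hp'
    refine ⟨⟨⟨(y.1, cst E' b k), ?_⟩, rfl⟩, rfl⟩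
    refine hκ k ?_
    refine y.2.trans ?_
    refine Eq.trans ?_ (congrArg (κ.app k) (app_cst q b k)).symm
    refine Eq.trans ?_ (app_cst κ _ k).symm
    exact congrArg (fun t => cst D t k) hb.symm

end Fibres

section Wreath

variable {C : Type} [SmallCategory C]

/-- A vertex of `[1](c)`, as a map to the sub-presheaf of vertices. -/
def vS (c : C) (i : Fin 2) : rep (Wr.pt : Wr C) ⟶ (vert (seg c)).toSP where
  app η :=
    { app := fun k => ↾ fun (u : η.unop ⟶ Wr.pt) =>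
        ⟨(u ≫ vtx (seg c) i : η.unop ⟶ seg c), ⟨i, fun _ => rfl⟩⟩
      naturality := fun _ _ _ => rfl }
  naturality η η' f := by
    refine NatTrans.ext (funext fun k => ?_)
    refine ConcreteCategory.hom_ext _ _ fun (u : η.unop ⟶ Wr.pt) => ?_
    exact Subtype.ext (Category.assoc f.unop u (vtx (seg c) i))

lemma const_factor {θ η : Wr C} (φ : η ⟶ θ) (h : ∃ v, ∀ t, Wr.Hom.f φ t = v) :
    Wr.toPt η ≫ vtx θ (Wr.Hom.f φ 0) = φ := by
  obtain ⟨v, hv⟩ := h
  refine Wr.hom_ext' ?_ fun i j h h' => ?_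
  · refine OrderHom.ext _ _ (funext fun t => ?_)
    show Wr.Hom.f φ 0 = Wr.Hom.f φ t
    rw [hv, hv]
  · exfalso
    have h1 := h'.1
    have h2 := h'.2
    rw [hv] at h1 h2
    have := h2.trans h1
    rw [Fin.le_def] at this
    simp at this

lemma vS_factor (c : C) (η : (Wr C)ᵒᵖ) (k : SimplexCategoryᵒᵖ)
    (z : ((vert (seg c)).toSP.obj η).obj k) :
    ((vS c (Wr.Hom.f (X := η.unop) (Y := seg c) z.1 0)).app η).app k (Wr.toPt η.unop) = z :=
  Subtype.ext (const_factor (θ := seg c) (η := η.unop) z.1 z.2)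

/-- The map `X([0]) ⊗ X([0]) ⟶ Map({0, 1}, X)`. -/
def rhoS (X : SP (Wr C)) (c : C) {k : SimplexCategory}
    (u : Fin 2 → (X.obj (op Wr.pt)).obj (op k)) : MpS (vert (seg c)).toSP X k where
  app η l s z := (X.map (Wr.toPt η.unop).op).app l
    ((X.obj (op Wr.pt)).map s.op (u (Wr.Hom.f (X := η.unop) (Y := seg c) z.1 0)))
  nat_left {η η'} f l s z := by
    have e : Wr.Hom.f (X := η'.unop) (Y := seg c)
        ((((vert (seg c)).toSP.map f).app l z).1) 0 =
        Wr.Hom.f (X := η.unop) (Y := seg c) z.1 0 := by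
      obtain ⟨v, hv⟩ := z.2
      show Wr.Hom.f (X := η.unop) (Y := seg c) z.1 (Wr.Hom.f f.unop 0) = _
      exact (hv _).trans (hv _).symm
    rw [e, ← sp_comp]
    refine congrArg (fun t => (X.map t).app l _) ?_
    exact congrArg Quiver.Hom.op (Wr.toPt_unique _ _)
  nat_right η l m g s z := by
    refine (congrArg _ (sset_comp _ s.op g _)).trans ?_
    exact sp_nat X _ g _

/-- The map `X([0]) ⊗ X([0]) ⟶ Map({0, 1}, X)`. -/
def rho (X : SP (Wr C)) (c : C) :
    X.obj (op Wr.pt) ⊗ X.obj (op Wr.pt) ⟶ Mp (vert (seg c)).toSP X where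
  app k := ↾ fun (u : (X.obj (op Wr.pt)).obj k × (X.obj (op Wr.pt)).obj k) =>
    (rhoS X c (k := k.unop) ![u.1, u.2] : MpS (vert (seg c)).toSP X k.unop)
  naturality k l α := by
    refine ConcreteCategory.hom_ext _ _ fun
      (u : (X.obj (op Wr.pt)).obj k × (X.obj (op Wr.pt)).obj k) => ?_
    refine MpS.ext ?_
    funext η m s z
    refine congrArg ((X.map (Wr.toPt η.unop).op).app m) ?_
    have aux : ∀ i : Fin 2, (X.obj (op Wr.pt)).map s.op
        ((![(X.obj (op Wr.pt)).map α u.1, (X.obj (op Wr.pt)).map α u.2] :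
          Fin 2 → (X.obj (op Wr.pt)).obj l) i) =
        (X.obj (op Wr.pt)).map (s ≫ α.unop).op
          ((![u.1, u.2] : Fin 2 → (X.obj (op Wr.pt)).obj k) i) := by
      intro i
      match i with
      | 0 => exact (sset_comp _ α s.op u.1).symm
      | 1 => exact (sset_comp _ α s.op u.2).symm
    exact aux _

lemma rhoS_vS (X : SP (Wr C)) (c : C) {k : SimplexCategory}
    (u : Fin 2 → (X.obj (op Wr.pt)).obj (op k)) (i : Fin 2) :
    (rhoS X c u).app (op Wr.pt) (op k) (𝟙 k)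
      (((vS c i).app (op Wr.pt)).app (op k) (𝟙 (Wr.pt : Wr C))) = u i := by
  show (X.map (Wr.toPt (Wr.pt : Wr C)).op).app (op k)
    ((X.obj (op Wr.pt)).map (𝟙 k).op (u i)) = _
  have e : Wr.toPt (Wr.pt : Wr C) = 𝟙 _ := Wr.toPt_unique _ _
  rw [e]
  exact (sp_id X _).trans (sset_id _ _)

lemma rho_inj (X : SP (Wr C)) (c : C) (k : SimplexCategoryᵒᵖ) :
    Function.Injective ((rho X c).app k) := by
  intro (u : (X.obj (op Wr.pt)).obj k × (X.obj (op Wr.pt)).obj k)
    (u' : (X.obj (op Wr.pt)).obj k × (X.obj (op Wr.pt)).obj k) h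
  have key : ∀ i : Fin 2, (![u.1, u.2] : Fin 2 → (X.obj (op Wr.pt)).obj k) i =
      (![u'.1, u'.2] : Fin 2 → (X.obj (op Wr.pt)).obj k) i := by
    intro i
    have e := congrFun (congrFun (congrFun (congrFun (congrArg MpS.app h) (op Wr.pt)) k)
      (𝟙 k.unop)) (((vS c i).app (op Wr.pt)).app k (𝟙 (Wr.pt : Wr C)))
    exact (rhoS_vS X c (k := k.unop) _ i).symm.trans (Eq.trans e
      (rhoS_vS X c (k := k.unop) _ i))
  exact Prod.ext (key 0) (key 1)

lemma ends_rho (X : SP (Wr C)) (c : C) :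
    yoMp X (seg c) ≫ Mp.pre (vert (seg c)).ι X = ends X c ≫ rho X c := by
  refine NatTrans.ext (funext fun k => ?_)
  refine ConcreteCategory.hom_ext _ _ fun (x : (X.obj (op (seg c))).obj k) => ?_
  refine MpS.ext ?_
  funext η l s z
  obtain ⟨v, hv⟩ : ∃ v, Wr.Hom.f (X := η.unop) (Y := seg c) z.1 0 = v := ⟨_, rfl⟩
  have hz : (Wr.toPt η.unop ≫ vtx (seg c) v : η.unop ⟶ seg c) = z.1 := by
    rw [← hv]
    exact const_factor (θ := seg c) (η := η.unop) z.1 z.2
  show (X.map (Quiver.Hom.op (show η.unop ⟶ seg c from z.1))).app l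
      ((X.obj (op (seg c))).map s.op x) =
    (X.map (Wr.toPt η.unop).op).app l ((X.obj (op Wr.pt)).map s.op
      ((![(X.map (vtx (seg c) 0).op).app k x, (X.map (vtx (seg c) 1).op).app k x] :
        Fin 2 → (X.obj (op Wr.pt)).obj k) (Wr.Hom.f (X := η.unop) (Y := seg c) z.1 0)))
  have aux : ∀ i : Fin 2, (![(X.map (vtx (seg c) 0).op).app k x,
      (X.map (vtx (seg c) 1).op).app k x] : Fin 2 → (X.obj (op Wr.pt)).obj k) i =
      (X.map (vtx (seg c) i).op).app k x := by
    intro i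
    match i with
    | 0 => rfl
    | 1 => rfl
  rw [aux, hv, ← sp_nat, ← sp_comp]
  refine congrArg (fun t => (X.map t).app l _) ?_
  exact congrArg Quiver.Hom.op hz.symm

/-- Restriction to the two vertices. -/
def kapY (X : SP (Wr C)) (c : C) : Yc ((E0 C).obj (vert (seg c)).toSP) X ⟶
    (Kf (T0 C) X).obj (op Wr.pt) ⊗ (Kf (T0 C) X).obj (op Wr.pt) :=
  CartesianMonoidalCategory.lift (Yc.pre ((E0 C).map (vS c 0)) X)
    (Yc.pre ((E0 C).map (vS c 1)) X)

lemma pre_kapY (X : SP (Wr C)) (c : C) :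
    Yc.pre ((E0 C).map (vert (seg c)).ι) X ≫ kapY X c = ends (Kf (T0 C) X) c := rfl

/-- Gluing of two simplices of `Kf (T0 C) X ([0])`. -/
def glueY (X : SP (Wr C)) (c : C) {k : SimplexCategory}
    (ψ : Fin 2 → MpS (E0o (rep (Wr.pt : Wr C)) k) X k) :
    MpS (E0o (vert (seg c)).toSP k) X k where
  app η l s z := (ψ (Wr.Hom.f (X := η.unop) (Y := seg c) z.1.1 0)).app η l s
    (Wr.toPt η.unop, z.2)
  nat_left {η η'} f l s z := by
    have e : Wr.Hom.f (X := η'.unop) (Y := seg c)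
        ((((E0o (vert (seg c)).toSP k).map f).app l z).1.1) 0 =
        Wr.Hom.f (X := η.unop) (Y := seg c) z.1.1 0 := by
      obtain ⟨v, hv⟩ := z.1.2
      show Wr.Hom.f (X := η.unop) (Y := seg c) z.1.1 (Wr.Hom.f f.unop 0) = _
      exact (hv _).trans (hv _).symm
    rw [e]
    refine Eq.trans ?_ ((ψ (Wr.Hom.f (X := η.unop) (Y := seg c) z.1.1 0)).nat_left f l s
      (Wr.toPt η.unop, z.2))
    refine congrArg ((ψ (Wr.Hom.f (X := η.unop) (Y := seg c) z.1.1 0)).app η' l s) ?_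
    exact Prod.ext (Wr.toPt_unique _ _) rfl
  nat_right η l m g s z :=
    (ψ (Wr.Hom.f (X := η.unop) (Y := seg c) z.1.1 0)).nat_right η g s (Wr.toPt η.unop, z.2)

lemma glueY_vS (X : SP (Wr C)) (c : C) {k : SimplexCategory}
    (ψ : Fin 2 → MpS (E0o (rep (Wr.pt : Wr C)) k) X k) (i : Fin 2) :
    (MpS.ofHom k (((E0 C).map (vS c i)).app k)).comp (glueY X c ψ) = ψ i := by
  refine MpS.ext ?_
  funext η l s z
  show (ψ i).app η l s (Wr.toPt η.unop, z.2) = (ψ i).app η l s z
  refine congrArg ((ψ i).app η l s) ?_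
  exact Prod.ext (Wr.toPt_unique _ _) rfl

lemma eq_of_vS (X : SP (Wr C)) (c : C) {k : SimplexCategory}
    (φ ψ : MpS (E0o (vert (seg c)).toSP k) X k)
    (h : ∀ i : Fin 2, (MpS.ofHom k (((E0 C).map (vS c i)).app k)).comp φ =
      (MpS.ofHom k (((E0 C).map (vS c i)).app k)).comp ψ) : φ = ψ := by
  refine MpS.ext ?_
  funext η l s z
  have e := congrFun (congrFun (congrFun (congrFun (congrArg MpS.app
    (h (Wr.Hom.f (X := η.unop) (Y := seg c) z.1.1 0))) η) l) s) (Wr.toPt η.unop, z.2)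
  have e1 : (((vS c (Wr.Hom.f (X := η.unop) (Y := seg c) z.1.1 0)).app η).app l
      (Wr.toPt η.unop), z.2) = z := Prod.ext (vS_factor c η l z.1) rfl
  have e2 : ∀ χ : MpS (E0o (vert (seg c)).toSP k) X k,
      ((MpS.ofHom k (((E0 C).map (vS c
        (Wr.Hom.f (X := η.unop) (Y := seg c) z.1.1 0))).app k)).comp χ).app η l s
        (Wr.toPt η.unop, z.2) = χ.app η l s z := fun χ => congrArg (χ.app η l s) e1
  exact (e2 φ).symm.trans (e.trans (e2 ψ))

lemma kapY_inj (X : SP (Wr C)) (c : C) (k : SimplexCategoryᵒᵖ) :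
    Function.Injective ((kapY X c).app k) := by
  intro φ ψ h
  refine eq_of_vS X c (k := k.unop) φ ψ fun i => ?_
  match i with
  | 0 => exact congrArg Prod.fst h
  | 1 => exact congrArg Prod.snd h

lemma kapY_bij (X : SP (Wr C)) (c : C) (k : SimplexCategoryᵒᵖ) :
    Function.Bijective ((kapY X c).app k) := by
  refine ⟨kapY_inj X c k, ?_⟩
  intro (y : MpS (E0o (rep (Wr.pt : Wr C)) k.unop) X k.unop ×
    MpS (E0o (rep (Wr.pt : Wr C)) k.unop) X k.unop)
  refine ⟨(glueY X c (k := k.unop) ![y.1, y.2] : MpS (E0o (vert (seg c)).toSP k.unop) X k.unop),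
    ?_⟩
  exact Prod.ext (glueY_vS X c (k := k.unop) ![y.1, y.2] 0)
    (glueY_vS X c (k := k.unop) ![y.1, y.2] 1)

/-- The value of `X([0])^2 ⟶ Map({0, 1}, X) ⟶ … ⟶ (Kf (T0 C) X)([0])^2`. -/
lemma rho_aug_kap (X : SP (Wr C)) (c : C) :
    rho X c ≫ augY (vert (seg c)).toSP X ≫ kapY X c =
      ((SFun.ofFrame (T0 C) (T0aug C)).η X).app (op Wr.pt) ⊗ₘ
        ((SFun.ofFrame (T0 C) (T0aug C)).η X).app (op Wr.pt) := by
  have key : ∀ (k : SimplexCategoryᵒᵖ) (u : Fin 2 → (X.obj (op Wr.pt)).obj k) (i : Fin 2),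
      (MpS.ofHom k.unop (((E0 C).map (vS c i)).app k.unop)).comp
        ((MpS.ofHom k.unop ((E0aug (vert (seg c)).toSP).app k.unop)).comp
          (rhoS X c (k := k.unop) u)) =
      (MpS.ofHom k.unop (((T0aug C).app Wr.pt).app k.unop)).comp
        (yoS (k := k.unop) (a := Wr.pt) (u i)) := by
    intro k u i
    refine MpS.ext ?_
    funext η l s z
    show (X.map (Wr.toPt η.unop).op).app l ((X.obj (op Wr.pt)).map s.op (u i)) =
      (X.map (Quiver.Hom.op (show η.unop ⟶ Wr.pt from z.1))).app l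
        ((X.obj (op Wr.pt)).map s.op (u i))
    refine congrArg (fun t => (X.map t).app l _) ?_
    exact congrArg Quiver.Hom.op (Wr.toPt_unique _ _)
  refine NatTrans.ext (funext fun k => ?_)
  refine ConcreteCategory.hom_ext _ _ fun
    (u : (X.obj (op Wr.pt)).obj k × (X.obj (op Wr.pt)).obj k) => ?_
  exact Prod.ext (key k ![u.1, u.2] 0) (key k ![u.1, u.2] 1)

/-- Every vertex of `Kf (T0 C) X` comes from `X`. -/
theorem T0_vt_surj (X : SP (Wr C)) (z : Vt (Kf (T0 C) X)) :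
    ∃ x : Vt X, vtMap ((SFun.ofFrame (T0 C) (T0aug C)).η X) x = z := by
  let z' : MpS (E0o (rep (Wr.pt : Wr C)) (SimplexCategory.mk 0)) X (SimplexCategory.mk 0) := z
  let w0 : (((E0o (rep (Wr.pt : Wr C)) (SimplexCategory.mk 0)).obj (op Wr.pt)).obj
    (op (SimplexCategory.mk 0))) := (𝟙 (Wr.pt : Wr C), fun _ => 0)
  refine ⟨z'.app (op Wr.pt) (op (SimplexCategory.mk 0)) (𝟙 _) w0, ?_⟩
  refine MpS.ext ?_
  funext η l s u
  show (X.map (Quiver.Hom.op (show η.unop ⟶ Wr.pt from u.1))).app l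
    ((X.obj (op Wr.pt)).map s.op (z'.app (op Wr.pt) (op (SimplexCategory.mk 0)) (𝟙 _) w0)) =
      z'.app η l s u
  rw [← z'.nat_right (op Wr.pt) (k := op (SimplexCategory.mk 0)) (l := l) s.op (𝟙 _) w0,
    ← z'.nat_left]
  have e : s.op.unop ≫ 𝟙 (SimplexCategory.mk 0) = s := Category.comp_id _
  refine congrArg₂ (fun t w => z'.app η l t w) e ?_
  refine Prod.ext (Wr.toPt_unique _ _) (funext fun i => ?_)
  exact Subsingleton.elim (α := Fin 1) _ _

lemma kanFib_of_comp_mono {E B D : SSet.{0}} {f : E ⟶ B} {κ : B ⟶ D} [Mono κ]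
    (h : KanFib (f ≫ κ)) : KanFib f := fun n i => ⟨fun {u v} sq => by
  have := h n i
  have sq' : CommSq u (SSet.horn.{0} (n + 1) i).ι (f ≫ κ) (v ≫ κ) :=
    ⟨by rw [← Category.assoc, sq.w, Category.assoc]⟩
  exact ⟨⟨{ l := sq'.lift
            fac_left := sq'.fac_left
            fac_right := by
              rw [← cancel_mono κ, Category.assoc]
              exact sq'.fac_right }⟩⟩⟩

lemma mono_ι (c : C) (a : (Wr C)ᵒᵖ) : Mono ((vert (seg c)).ι.app a) := by
  have : ∀ k, Mono (((vert (seg c)).ι.app a).app k) := fun k =>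
    (mono_iff_injective _).mpr fun z z' h => Subtype.ext h
  exact NatTrans.mono_of_mono_app _

/-- The mapping presheaves of the completion at level `0`, given the properties of the frame. -/
theorem HmK0_objHoEq_of {X : SP (Wr C)} (hX : InjFib X)
    (hV : ∀ c : C, KanFib (ends (Kf (T0 C) X) c))
    (hrel : ∀ c : C, KanFib (Yc.pre ((E0 C).map (vert (seg c)).ι) X) →
      HoEq (relMap (vert (seg c)) X)) (x y : Vt X) :
    ObjHoEq (HmMap ((SFun.ofFrame (T0 C) (T0aug C)).η X) x y) := by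
  intro c
  let xy : (X.obj (op Wr.pt) ⊗ X.obj (op Wr.pt)).obj (op (SimplexCategory.mk 0)) := (x, y)
  have iκ : IsIso (kapY X c.unop) := isIso_of_bij _ (kapY_bij X c.unop)
  have hF : KanFib (Yc.pre ((E0 C).map (vert (seg c.unop)).ι) X) :=
    kanFib_of_comp_mono (κ := kapY X c.unop) (by
      rw [pre_kapY]
      exact hV c.unop)
  have h1 := hrel c.unop hF
  have hB : SSet.KanComplex (Mp (vert (seg c.unop)).toSP X) := Pool.Agent.Helper83.FL4.Mp_kan _ hX
  have hp : KanFib (Mp.pre (vert (seg c.unop)).ι X) :=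
    Pool.Agent.Helper83.FL4.Mp_pre_kanFib _ (mono_ι c.unop) hX
  have w : relMap (vert (seg c.unop)) X ≫
      Fp.snd (Yc.pre ((E0 C).map (vert (seg c.unop)).ι) X) (augY (vert (seg c.unop)).toSP X) =
      Mp.pre (vert (seg c.unop)).ι X ≫ 𝟙 _ := rfl
  have h2 := Pool.Agent.Helper54.FL2.Fb_map_hoEq hp
    (Pool.Agent.Helper54.FL2.Fp_snd_kanFib _ _ hF) hB hB (relMap (vert (seg c.unop)) X) (𝟙 _) w h1
    (Pool.Agent.Helper88.FL.hoEq_of_isIso _)
    ((rho X c.unop).app (op (SimplexCategory.mk 0)) xy)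
  let e₀ := fmap (yoMp X (seg c.unop)) (rho X c.unop) (ends_rho X c.unop) xy
    ((rho X c.unop).app (op (SimplexCategory.mk 0)) xy) rfl
  have he₀ : IsIso e₀ := isIso_of_bij _
    (fmap_bij _ _ _ _ _ _ (yoMp_bij X (seg c.unop)) (rho_inj X c.unop))
  have w' : Fp.fst (Yc.pre ((E0 C).map (vert (seg c.unop)).ι) X)
        (augY (vert (seg c.unop)).toSP X) ≫ ends (Kf (T0 C) X) c.unop =
      Fp.snd (Yc.pre ((E0 C).map (vert (seg c.unop)).ι) X)
        (augY (vert (seg c.unop)).toSP X) ≫ (augY (vert (seg c.unop)).toSP X ≫ kapY X c.unop) := by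
    rw [← pre_kapY, ← Category.assoc, ← Category.assoc, Pool.Agent.Helper54.FL2.Fp_w]
  let xy' : ((Kf (T0 C) X).obj (op Wr.pt) ⊗ (Kf (T0 C) X).obj (op Wr.pt)).obj
      (op (SimplexCategory.mk 0)) := (vtMap ((SFun.ofFrame (T0 C) (T0aug C)).η X) x,
        vtMap ((SFun.ofFrame (T0 C) (T0aug C)).η X) y)
  have hb : (augY (vert (seg c.unop)).toSP X ≫ kapY X c.unop).app
      (op (SimplexCategory.mk 0)) ((rho X c.unop).app (op (SimplexCategory.mk 0)) xy) = xy' :=
    ConcreteCategory.congr_hom (NatTrans.congr_app (rho_aug_kap X c.unop)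
      (op (SimplexCategory.mk 0))) xy
  let q := fmap (Fp.fst (Yc.pre ((E0 C).map (vert (seg c.unop)).ι) X)
    (augY (vert (seg c.unop)).toSP X)) (augY (vert (seg c.unop)).toSP X ≫ kapY X c.unop) w'
    ((rho X c.unop).app (op (SimplexCategory.mk 0)) xy) xy' hb
  have hq : IsIso q := isIso_of_bij _ (fmap_fst_bij _ _ (kapY X c.unop) (kapY_inj X c.unop)
    (ends (Kf (T0 C) X) c.unop) (pre_kapY X c.unop) w' ((rho X c.unop).app (op (SimplexCategory.mk 0)) xy) xy' hb)
  exact Pool.Agent.Helper88.FL.hoEq_of_arrow_iso (asIso e₀).symm (@asIso _ _ _ _ q hq)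
    ((Iso.eq_inv_comp (asIso e₀)).mpr rfl) h2

end Wreath

end

end Helper85FL2
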